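import Pool.Agent.Helper881.LsF
import Pool.Agent.Helper881.LsG

set_option autoImplicit false

namespace Pool.Agent.Results.MP_5cdc53_co.GolayPair

/-- `m(n,k,L)`: the largest number of `k`-subsets of an `n`-set such that any two distinct ones
meet in a number of elements lying in `L`. -/
noncomputable def m (n k : ℕ) (L : Finset ℕ) : ℕ :=
  sSup {s : ℕ | ∃ F : Finset (Finset (Fin n)), F.card = s ∧
    (∀ A ∈ F, A.card = k) ∧
    ∀ A ∈ F, ∀ B ∈ F, A ≠ B → (A ∩ B).card ∈ L}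

/-- The property of Q1: `m(n,k,L) ≥ c n^s` for all `n ≥ k`, with `s = |L|` and some `c > 0`. -/
def FullOrder (k : ℕ) (L : Finset ℕ) : Prop :=
  ∃ c : ℝ, 0 < c ∧ ∀ n : ℕ, k ≤ n → c * (n : ℝ) ^ L.card ≤ (m n k L : ℝ)

/-- `J` is the family of flats other than the ground set of a perfect matroid design on the
point set `Fin k`, of rank `|L|`, whose flat sizes are the elements of `L` in increasing order
(and `k`): `J` is closed under intersection, every member has its size in `L`, some member has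
the least size, and for a member `A`, a point `x ∉ A` and the next element `l` of `L` after `|A|`
there is a member of size `l` containing `A` and `x`. -/
structure IsPMD (k : ℕ) (L : Finset ℕ) (J : Finset (Finset (Fin k))) : Prop where
  inter : ∀ A ∈ J, ∀ B ∈ J, A ∩ B ∈ J
  card : ∀ A ∈ J, A.card ∈ L
  bot : ∃ A ∈ J, ∀ l ∈ L, A.card ≤ l
  cover : ∀ A ∈ J, ∀ x, x ∉ A → ∀ l ∈ L, A.card < l → (∀ l' ∈ L, A.card < l' → l ≤ l') →
    ∃ B ∈ J, insert x A ⊆ B ∧ B.card = l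

/-- (1) The pair `(11, {0,1,2,3,5})` has the property of Q1 and `m(n,11,{0,1,2,3,5}) = Θ(n^5)`.
(2) So has `(12, {0,1,2,3,4,6})`, with order `n^6`.
(3) If `k` vectors `v i` of `K^s`, `s = |L|`, `K` a finite field, are such that every proper
subspace of `K^s` contains a number of them lying in `L`, then `(k, L)` has the property.
(4) For every `(k, L)` either there is a perfect matroid design on `k` points with the flat sizes
`L`, or `m(n,k,L) = O(n^(s-1))`. -/
theorem result :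
    (FullOrder 11 {0, 1, 2, 3, 5} ∧
      ∃ C : ℝ, 0 < C ∧ ∀ n : ℕ, 1 ≤ n → (m n 11 {0, 1, 2, 3, 5} : ℝ) ≤ C * (n : ℝ) ^ 5) ∧
    (FullOrder 12 {0, 1, 2, 3, 4, 6} ∧
      ∃ C : ℝ, 0 < C ∧ ∀ n : ℕ, 1 ≤ n → (m n 12 {0, 1, 2, 3, 4, 6} : ℝ) ≤ C * (n : ℝ) ^ 6) ∧
    (∀ (k : ℕ) (L : Finset ℕ), L.Nonempty → L ⊆ Finset.range k →
      ∀ (K : Type) [Field K] [Fintype K] (v : Fin k → (Fin L.card → K)),
        (∀ W : Submodule K (Fin L.card → K), W ≠ ⊤ → {i | v i ∈ W}.ncard ∈ L) →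
        FullOrder k L) ∧
    (∀ (k : ℕ) (L : Finset ℕ), L.Nonempty → L ⊆ Finset.range k →
      (∃ J, IsPMD k L J) ∨
      ∃ C : ℝ, 0 < C ∧ ∀ n : ℕ, 1 ≤ n → (m n k L : ℝ) ≤ C * (n : ℝ) ^ (L.card - 1)) := by
  refine ⟨⟨?_, ?_⟩, ⟨?_, ?_⟩, ?_, ?_⟩
  · exact Pool.Agent.Helper881.Ls.order11
  · exact Pool.Agent.Helper881.Ls.upper (k := 11) (L := {0, 1, 2, 3, 5}) ⟨0, by simp⟩ (by decide)
  · exact Pool.Agent.Helper881.Ls.order12
  · exact Pool.Agent.Helper881.Ls.upper (k := 12) (L := {0, 1, 2, 3, 4, 6}) ⟨0, by simp⟩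
      (by decide)
  · intro k L hL hLk K _ _ v h
    apply Pool.Agent.Helper881.Ls.order_of_vectors hL hLk v
    intro W hW A hA
    have h1 := h W hW
    have h2 : {i | v i ∈ W} = (A : Set (Fin k)) := by
      ext i
      simp [hA i]
    rwa [h2, Set.ncard_coe_finset] at h1
  · intro k L hL hLk
    rcases Pool.Agent.Helper881.Ls.dichotomy hL hLk with ⟨J, hJ⟩ | h
    · exact Or.inl ⟨J, hJ.inter, hJ.card, hJ.bot, hJ.cover⟩
    · exact Or.inr h

end Pool.Agent.Results.MP_5cdc53_co.GolayPair
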